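import Pool.Agent.H47.Grid.Final

/-! Cotype and distortion of grids: the final lower bound. -/

set_option autoImplicit false

namespace Pool.Agent.H47.Grid

open Finset

section
variable {Y : Type*} [NormedAddCommGroup Y] [NormedSpace ℝ Y]

theorem HasCotype.mono {q C C' : ℝ} (h : HasCotype Y q C) (hCC : C ≤ C') : HasCotype Y q C' := by
  intro k y
  refine (h k y).trans ?_
  exact mul_le_mul_of_nonneg_right hCC (by positivity)

/-- padding by zeros -/
def pad {n m N : ℕ} (x : Fin N → Fin (m + 1)) : Fin n → Fin (m + 1) :=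
  fun i => if h : (i : ℕ) < N then x ⟨i, h⟩ else 0

theorem gridDist_pad {n m N : ℕ} (hN : N ≤ n) (x y : Fin N → Fin (m + 1)) :
    gridDist (pad x : Fin n → Fin (m + 1)) (pad y) = gridDist x y := by
  apply le_antisymm
  · apply gridDist_le _ _ (gridDist_nonneg _ _)
    intro i
    by_cases h : (i : ℕ) < N
    · have e1 : (pad x : Fin n → Fin (m + 1)) i = x ⟨i, h⟩ := dif_pos h
      have e2 : (pad y : Fin n → Fin (m + 1)) i = y ⟨i, h⟩ := dif_pos h
      rw [e1, e2]
      exact le_gridDist x y _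
    · have e1 : (pad x : Fin n → Fin (m + 1)) i = 0 := dif_neg h
      have e2 : (pad y : Fin n → Fin (m + 1)) i = 0 := dif_neg h
      rw [e1, e2, sub_self, abs_zero]
      exact gridDist_nonneg _ _
  · apply gridDist_le _ _ (gridDist_nonneg _ _)
    intro i
    have hi : ((Fin.castLE hN i : Fin n) : ℕ) < N := i.2
    have e1 : (pad x : Fin n → Fin (m + 1)) (Fin.castLE hN i) = x i := dif_pos hi
    have e2 : (pad y : Fin n → Fin (m + 1)) (Fin.castLE hN i) = y i := dif_pos hi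
    rw [← e1, ← e2]
    exact le_gridDist _ _ _

theorem GridEmbeds.restrict {n m N : ℕ} (hN : N ≤ n) {D : ℝ} (h : GridEmbeds Y n m D) :
    ∃ g : (Fin N → Fin (m + 1)) → Y, (∀ x y, ‖g x - g y‖ ≤ D * gridDist x y) ∧
      (∀ x y, gridDist x y ≤ ‖g x - g y‖) := by
  obtain ⟨f, l, hl, hf⟩ := h
  refine ⟨fun x => l⁻¹ • f (pad x), fun x y => ?_, fun x y => ?_⟩
  · have h2 := (hf (pad x) (pad y)).2
    rw [gridDist_pad hN, dist_eq_norm] at h2
    rw [← smul_sub, norm_smul, norm_inv, Real.norm_eq_abs, abs_of_pos hl]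
    calc l⁻¹ * ‖f (pad x) - f (pad y)‖ ≤ l⁻¹ * (D * l * gridDist x y) := by gcongr
      _ = D * gridDist x y := by field_simp
  · have h2 := (hf (pad x) (pad y)).1
    rw [gridDist_pad hN, dist_eq_norm] at h2
    rw [← smul_sub, norm_smul, norm_inv, Real.norm_eq_abs, abs_of_pos hl]
    calc gridDist x y = l⁻¹ * (l * gridDist x y) := by field_simp
      _ ≤ l⁻¹ * ‖f (pad x) - f (pad y)‖ := by gcongr

theorem GridEmbeds.one_le {n m : ℕ} (hn : 1 ≤ n) (hm : 1 ≤ m) {D : ℝ} (h : GridEmbeds Y n m D) :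
    1 ≤ D := by
  obtain ⟨f, l, hl, hf⟩ := h
  obtain ⟨h1, h2⟩ := hf (fun _ => 0) (fun _ => Fin.last m)
  have hpos : 0 < gridDist (fun _ : Fin n => (0 : Fin (m + 1))) (fun _ => Fin.last m) := by
    have := le_gridDist (fun _ : Fin n => (0 : Fin (m + 1))) (fun _ => Fin.last m) ⟨0, hn⟩
    refine lt_of_lt_of_le ?_ this
    simp
    omega
  have h3 := h1.trans h2
  by_contra hD
  push Not at hD
  have : D * l * gridDist (fun _ : Fin n => (0 : Fin (m + 1))) (fun _ => Fin.last m)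
      < l * gridDist (fun _ : Fin n => (0 : Fin (m + 1))) (fun _ => Fin.last m) := by
    apply mul_lt_mul_of_pos_right _ hpos
    nlinarith
  linarith

/-- Quantitative lower bound with an explicit constant. -/
theorem lower_bound {q C : ℝ} (hq : 1 < q) (hY : HasCotype Y q C) {n m : ℕ} (hn : 1 ≤ n)
    (hm : 1 ≤ m) {D : ℝ} (h : GridEmbeds Y n m D) :
    min ((n:ℝ) ^ (1 / q)) ((m:ℝ) ^ (2 / (q + 2))) ≤ 8464 * max C 1 * D := by
  have hq0 : 0 < q := by linarith
  set C' := max C 1 with hC'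
  have hC1 : 1 ≤ C' := le_max_right _ _
  have hY' : HasCotype Y q C' := hY.mono (le_max_left _ _)
  have hD1 : 1 ≤ D := h.one_le hn hm
  have hn1 : (1:ℝ) ≤ n := by exact_mod_cast hn
  have hm1 : (1:ℝ) ≤ m := by exact_mod_cast hm
  set t := min ((n:ℝ) ^ (1 / q)) ((m:ℝ) ^ (2 / (q + 2))) with ht
  have ht1 : 1 ≤ t := le_min (Real.one_le_rpow hn1 (by positivity)) (Real.one_le_rpow hm1 (by positivity))
  by_contra hlt
  push Not at hlt
  -- D < t / (8464 C')
  have htq1 : 1 ≤ t ^ q := Real.one_le_rpow ht1 hq0.le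
  have htq0 : 0 ≤ t ^ q := by linarith
  obtain ⟨N, hN⟩ : ∃ N : ℕ, N = ⌊t ^ q⌋₊ := ⟨_, rfl⟩
  have hN1 : 1 ≤ N := by rw [hN]; exact Nat.le_floor (by exact_mod_cast htq1)
  have hNle : (N:ℝ) ≤ t ^ q := by rw [hN]; exact Nat.floor_le htq0
  have hNgt : t ^ q < N + 1 := by rw [hN]; exact Nat.lt_floor_add_one _
  have hN1' : (1:ℝ) ≤ N := by exact_mod_cast hN1
  have hNhalf : t ^ q / 2 ≤ N := by linarith
  have hNn : N ≤ n := by
    have h1 : t ^ q ≤ n := by
      calc t ^ q ≤ ((n:ℝ) ^ (1 / q)) ^ q := Real.rpow_le_rpow (by linarith) (min_le_left _ _) hq0.le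
        _ = n := by
          rw [← Real.rpow_mul (by linarith), one_div_mul_cancel hq0.ne', Real.rpow_one]
    exact_mod_cast hNle.trans h1
  have hsqrt : Real.sqrt N ≤ (m:ℝ) ^ (q / (q + 2)) := by
    have h1 : t ^ q ≤ ((m:ℝ) ^ (q / (q + 2))) ^ 2 := by
      calc t ^ q ≤ ((m:ℝ) ^ (2 / (q + 2))) ^ q :=
            Real.rpow_le_rpow (by linarith) (min_le_right _ _) hq0.le
        _ = ((m:ℝ) ^ (q / (q + 2))) ^ 2 := by
          rw [← Real.rpow_mul (by linarith), ← Real.rpow_natCast, ← Real.rpow_mul (by linarith)]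
          congr 1
          push_cast; ring
    calc Real.sqrt N ≤ Real.sqrt (((m:ℝ) ^ (q / (q + 2))) ^ 2) := Real.sqrt_le_sqrt (hNle.trans h1)
      _ = _ := Real.sqrt_sq (by positivity)
  obtain ⟨k, hk⟩ : ∃ k : ℕ, k = ⌈Real.sqrt N⌉₊ := ⟨_, rfl⟩
  have hs1 : 1 ≤ Real.sqrt N := by
    rw [show (1:ℝ) = Real.sqrt 1 by simp]
    exact Real.sqrt_le_sqrt hN1'
  have hk1 : 1 ≤ k := by
    rw [hk]; exact Nat.one_le_ceil_iff.mpr (by linarith)
  have hkge : Real.sqrt N ≤ k := by rw [hk]; exact Nat.le_ceil _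
  have hkle : (k:ℝ) ≤ 2 * Real.sqrt N := by
    have : (k:ℝ) < Real.sqrt N + 1 := by rw [hk]; exact Nat.ceil_lt_add_one (by positivity)
    linarith
  have hDt : 8464 * D ≤ t := by
    have : 8464 * D ≤ 8464 * C' * D := by nlinarith
    linarith
  have h4 : 4 * D * k ≤ m := by
    have h5 : t * Real.sqrt N ≤ m := by
      calc t * Real.sqrt N ≤ (m:ℝ) ^ (2 / (q + 2)) * (m:ℝ) ^ (q / (q + 2)) :=
            mul_le_mul (min_le_right _ _) hsqrt (by positivity) (by positivity)
        _ = m := by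
          rw [← Real.rpow_add (by linarith), ← add_div, add_comm 2 q,
            div_self (by linarith), Real.rpow_one]
    calc 4 * D * k ≤ 4 * D * (2 * Real.sqrt N) := by gcongr
      _ = 8 * D * Real.sqrt N := by ring
      _ ≤ t * Real.sqrt N := by
        apply mul_le_mul_of_nonneg_right _ (by positivity)
        linarith
      _ ≤ m := h5
  have hkm : k ≤ m := by
    have : (k:ℝ) ≤ m := by
      have hk0 : (0:ℝ) ≤ k := by positivity
      nlinarith
    exact_mod_cast this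
  obtain ⟨g, hg1, hg2⟩ := h.restrict hNn
  let T : Disc := ⟨N, m, N ^ 2 * m, k, hN1, hm, Nat.mul_pos (by positivity) hm, hk1, hkm⟩
  have hmain := main_ineq T hq (by linarith : 0 ≤ C') hY' g (by linarith : 0 ≤ D) hg1 hg2 h4
    (by change ((N:ℝ)) ^ 2 * m ≤ ((N ^ 2 * m : ℕ) : ℝ); push_cast; exact le_refl _)
  change ((N:ℝ)) ^ (1 / q) ≤ C' * D * (2052 + 64 * Real.sqrt N / k) at hmain
  have hk0 : (0:ℝ) < k := by linarith
  have hr : Real.sqrt N / k ≤ 1 := (div_le_one hk0).mpr hkge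
  have h6 : ((N:ℝ)) ^ (1 / q) ≤ C' * D * 2116 := by
    refine hmain.trans ?_
    apply mul_le_mul_of_nonneg_left _ (by positivity)
    rw [mul_div_assoc]; linarith
  have h7 : t / 2 ≤ (N:ℝ) ^ (1 / q) := by
    calc t / 2 = ((t / 2) ^ q) ^ (1 / q) := by
          rw [← Real.rpow_mul (by linarith), mul_one_div_cancel hq0.ne', Real.rpow_one]
      _ ≤ (N:ℝ) ^ (1 / q) := by
          apply Real.rpow_le_rpow (by positivity) _ (by positivity)
          rw [Real.div_rpow (by linarith) (by norm_num)]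
          refine le_trans ?_ hNhalf
          apply div_le_div_of_nonneg_left htq0 (by norm_num)
          calc (2:ℝ) = 2 ^ (1:ℝ) := by simp
            _ ≤ 2 ^ q := Real.rpow_le_rpow_of_exponent_le (by norm_num) hq.le
  nlinarith

end

end Pool.Agent.H47.Grid
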