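import Pool.Agent.H47.Grid.Lin

/-! Cotype and distortion of grids: the main inequality. -/

set_option autoImplicit false

namespace Pool.Agent.H47.Grid

open Finset

/-- Rademacher cotype `q` with constant `C` -/
def HasCotype (Y : Type*) [NormedAddCommGroup Y] [NormedSpace ℝ Y] (q C : ℝ) : Prop :=
  ∀ (k : ℕ) (y : Fin k → Y),
    (∑ j, ‖y j‖ ^ q) ^ (1 / q) ≤
      C * ((∑ ε : Fin k → Bool, ‖∑ j, (if ε j then (1:ℝ) else -1) • y j‖ ^ q) / 2 ^ k) ^ (1 / q)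

/-- the grid `{0,…,m}^n` with the `l_∞` distance embeds into `Y` with distortion `D` -/
def GridEmbeds (Y : Type*) [NormedAddCommGroup Y] (n m : ℕ) (D : ℝ) : Prop :=
  ∃ (f : (Fin n → Fin (m + 1)) → Y) (l : ℝ), 0 < l ∧
    ∀ x y, l * gridDist x y ≤ dist (f x) (f y) ∧ dist (f x) (f y) ≤ D * l * gridDist x y

section
variable {Y : Type*} [NormedAddCommGroup Y] [NormedSpace ℝ Y]

theorem cotype_sup {q C : ℝ} (hq : 1 ≤ q) (hC : 0 ≤ C) (h : HasCotype Y q C) {k : ℕ} (y : Fin k → Y)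
    {A : ℝ} (hA : 0 ≤ A)
    (hy : ∀ ε : Fin k → Bool, ‖∑ j, (if ε j then (1:ℝ) else -1) • y j‖ ≤ A) :
    (∑ j, ‖y j‖ ^ q) ^ (1 / q) ≤ C * A := by
  refine (h k y).trans ?_
  apply mul_le_mul_of_nonneg_left _ hC
  have h1 : (∑ ε : Fin k → Bool, ‖∑ j, (if ε j then (1:ℝ) else -1) • y j‖ ^ q) / 2 ^ k ≤ A ^ q := by
    rw [div_le_iff₀ (by positivity)]
    have : ∑ ε : Fin k → Bool, ‖∑ j, (if ε j then (1:ℝ) else -1) • y j‖ ^ q
        ≤ ∑ _ε : Fin k → Bool, A ^ q :=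
      Finset.sum_le_sum (fun ε _ => Real.rpow_le_rpow (norm_nonneg _) (hy ε) (by linarith))
    refine this.trans (le_of_eq ?_)
    simp [mul_comm]
  have h2 : (A ^ q) ^ (1 / q) = A := by
    rw [← Real.rpow_mul hA, mul_one_div_cancel (by linarith), Real.rpow_one]
  rw [← h2]
  exact Real.rpow_le_rpow (by positivity) h1 (by positivity)

theorem sum_le_power {q : ℝ} (hq : 1 < q) {k : ℕ} (a : Fin k → ℝ) (ha : ∀ j, 0 ≤ a j) :
    ∑ j, a j ≤ (k:ℝ) ^ (1 - 1 / q) * (∑ j, a j ^ q) ^ (1 / q) := by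
  have hc : (Real.conjExponent q).HolderConjugate q := (Real.HolderConjugate.conjExponent hq).symm
  have := Real.inner_le_Lp_mul_Lq_of_nonneg univ hc (f := fun _ : Fin k => (1:ℝ)) (g := a)
    (fun _ _ => zero_le_one) (fun j _ => ha j)
  simp only [one_mul, Real.one_rpow, Finset.sum_const, Finset.card_univ, Fintype.card_fin,
    nsmul_eq_mul, mul_one] at this
  refine this.trans (le_of_eq ?_)
  congr 2
  unfold Real.conjExponent
  field_simp

theorem sum_range_le_zmod {L : ℕ} [NeZero L] (N : ℕ) (h : ZMod L → ℝ) (h0 : ∀ t, 0 ≤ h t)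
    (hN : 2 * N ≤ L) : ∑ i ∈ Finset.range N, h ((i : ℕ) : ZMod L) ≤ ∑ t : ZMod L, h t := by
  classical
  have hinj : Set.InjOn (fun i : ℕ => (i : ZMod L)) (Finset.range N : Set ℕ) := by
    intro a ha b hb hab
    rw [Finset.mem_coe, Finset.mem_range] at ha hb
    have e := congrArg (cabs (L := L)) hab
    simp only at e
    rwa [cabs_natCast (by omega), cabs_natCast (by omega)] at e
  have him := Finset.sum_image (f := h) (g := fun i : ℕ => (i : ZMod L)) (s := Finset.range N) hinj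
  rw [← him]
  exact Finset.sum_le_sum_of_subset_of_nonneg (Finset.subset_univ _) (fun _ _ _ => h0 _)

/-- the point of the torus with `j`-th coordinate `t` and the others `0` -/
def Disc.sj (T : Disc) (j : Fin T.n) (t : ZMod T.L) : T.Tor := fun l => if l = j then t else 0

theorem Disc.sj_add (T : Disc) (j : Fin T.n) (a b : ZMod T.L) :
    T.sj j (a + b) = T.sj j a + T.sj j b := by
  funext l
  change (if l = j then a + b else 0) = (if l = j then a else 0) + (if l = j then b else 0)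
  split_ifs
  · rfl
  · rw [add_zero]

theorem Disc.sj_zero (T : Disc) (j : Fin T.n) : T.sj j 0 = 0 := by
  funext l
  change (if l = j then (0 : ZMod T.L) else 0) = 0
  split_ifs <;> rfl

theorem Disc.sj_same (T : Disc) (j : Fin T.n) (a : ZMod T.L) : T.sj j a j = a := if_pos rfl

theorem Disc.sj_one (T : Disc) (j : Fin T.n) : T.sj j 1 = ind {j} := by
  funext l
  change (if l = j then (1 : ZMod T.L) else 0) = if l ∈ ({j} : Finset (Fin T.n)) then 1 else 0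
  by_cases hl : l = j
  · rw [if_pos hl, if_pos (Finset.mem_singleton.mpr hl)]
  · rw [if_neg hl, if_neg (fun h => hl (Finset.mem_singleton.mp h))]

theorem line_sum (T : Disc) (g : ZMod T.L → ℝ)
    (hs : ∑ z, g z ^ 2 = 1) (hsupp : ∀ z, g z ≠ 0 → cabs z < T.k * T.R)
    (f : T.G → Y) {D : ℝ} (hD : 0 ≤ D) (hf : ∀ x y, ‖f x - f y‖ ≤ D * gridDist x y)
    (hlo : ∀ x y, gridDist x y ≤ ‖f x - f y‖) (j : Fin T.n) (X : T.Tor) :
    T.m - 2 * D * T.k ≤ ∑ t : ZMod T.L, ‖vj T g f j (X + T.sj j t)‖ := by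
  classical
  have hadd : ∀ a b, T.sj j (a + b) = T.sj j a + T.sj j b := T.sj_add j
  have hsj0 : T.sj j 0 = 0 := T.sj_zero j
  have hsjj : ∀ a, (T.sj j a) j = a := T.sj_same j
  have hsj1 : T.sj j 1 = ind {j} := T.sj_one j
  obtain ⟨X0, hX0⟩ : ∃ X0 : T.Tor, X0 = X - T.sj j (X j) := ⟨_, rfl⟩
  have hX0j : X0 j = 0 := by rw [hX0, Pi.sub_apply, hsjj, sub_self]
  obtain ⟨h, hh⟩ : ∃ h : ZMod T.L → ℝ, h = fun t => ‖vj T g f j (X0 + T.sj j t)‖ := ⟨_, rfl⟩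
  have e1 : ∑ t : ZMod T.L, ‖vj T g f j (X + T.sj j t)‖ = ∑ t : ZMod T.L, h t := by
    have := Equiv.sum_comp (Equiv.addLeft (X j)) h
    rw [← this]
    refine Finset.sum_congr rfl (fun t _ => ?_)
    rw [Equiv.coe_addLeft, hh]
    have e : X + T.sj j t = X0 + T.sj j (X j + t) := by
      rw [hadd, hX0]
      abel
    exact congrArg (fun Z => ‖vj T g f j Z‖) e
  rw [e1]
  have hL2 : 2 * (T.R * T.m) ≤ T.L := le_refl _
  have e2 : ∑ i ∈ Finset.range (T.R * T.m), h ((i : ℕ) : ZMod T.L) ≤ ∑ t : ZMod T.L, h t :=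
    sum_range_le_zmod (L := T.L) (T.R * T.m) h (fun t => by rw [hh]; exact norm_nonneg _) hL2
  refine le_trans ?_ e2
  obtain ⟨W, hW⟩ : ∃ W : ℕ → Y, W = fun i => Fs T g f (X0 + T.sj j ((i : ℕ) : ZMod T.L)) := ⟨_, rfl⟩
  have hstep : ∀ i : ℕ, h ((i : ℕ) : ZMod T.L) = ‖W (i + 1) - W i‖ := by
    intro i
    rw [hh, hW]
    change ‖Fs T g f (X0 + T.sj j ((i : ℕ) : ZMod T.L) + ind {j}) - Fs T g f (X0 + T.sj j ((i : ℕ) : ZMod T.L))‖
      = ‖Fs T g f (X0 + T.sj j ((i + 1 : ℕ) : ZMod T.L)) - Fs T g f (X0 + T.sj j ((i : ℕ) : ZMod T.L))‖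
    rw [← hsj1, add_assoc, ← hadd, Nat.cast_succ]
  rw [Finset.sum_congr rfl (fun i _ => hstep i)]
  refine le_trans ?_ (norm_sum_le _ _)
  rw [Finset.sum_range_sub W (T.R * T.m)]
  have hW0 : W 0 = Fs T g f X0 := by
    rw [hW]
    change Fs T g f (X0 + T.sj j ((0 : ℕ) : ZMod T.L)) = Fs T g f X0
    rw [Nat.cast_zero, hsj0, add_zero]
  rw [hW0]
  obtain ⟨X1, hX1⟩ : ∃ X1 : T.Tor, X1 = X0 + T.sj j ((T.R * T.m : ℕ) : ZMod T.L) := ⟨_, rfl⟩
  have hW1 : W (T.R * T.m) = Fs T g f X1 := by rw [hW, hX1]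
  rw [hW1]
  have n1 := Fs_near T g hs hsupp f hD hf X0
  have n2 := Fs_near T g hs hsupp f hD hf X1
  have hlow : (T.m : ℝ) ≤ ‖ft T f X1 - ft T f X0‖ := by
    refine le_trans ?_ (hlo _ _)
    refine le_trans ?_ (le_gridDist _ _ j)
    change (T.m:ℝ) ≤ |((cabs (X1 j) / T.R : ℕ) : ℝ) - ((cabs (X0 j) / T.R : ℕ) : ℝ)|
    have c1 : cabs (X1 j) = T.R * T.m := by
      rw [hX1, Pi.add_apply, hsjj, hX0j, zero_add]
      exact cabs_natCast hL2
    rw [c1, hX0j, cabs_zero, Nat.mul_div_cancel_left _ T.hR]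
    simp
  have e4 : ft T f X1 - ft T f X0 = (Fs T g f X1 - Fs T g f X0) - (Fs T g f X1 - ft T f X1)
      + (Fs T g f X0 - ft T f X0) := by abel
  rw [e4] at hlow
  have h5 := norm_add_le ((Fs T g f X1 - Fs T g f X0) - (Fs T g f X1 - ft T f X1))
    (Fs T g f X0 - ft T f X0)
  have h6 := norm_sub_le (Fs T g f X1 - Fs T g f X0) (Fs T g f X1 - ft T f X1)
  linarith

/-- the main inequality -/
theorem main_ineq (T : Disc) {q C : ℝ} (hq : 1 < q) (hC : 0 ≤ C) (hY : HasCotype Y q C)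
    (f : T.G → Y) {D : ℝ} (hD : 0 ≤ D) (hf : ∀ x y, ‖f x - f y‖ ≤ D * gridDist x y)
    (hlo : ∀ x y, gridDist x y ≤ ‖f x - f y‖) (hDk : 4 * D * T.k ≤ T.m)
    (hRbig : (T.n:ℝ) ^ 2 * T.m ≤ T.R) :
    (T.n:ℝ) ^ (1 / q) ≤ C * D * (2052 + 64 * Real.sqrt T.n / T.k) := by
  classical
  have hR := T.R_pos
  have hk0 : (0:ℝ) < T.k := by exact_mod_cast T.hk
  have hm0 : (0:ℝ) < T.m := by exact_mod_cast T.hm
  have hn0 : (0:ℝ) < T.n := by exact_mod_cast T.hn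
  obtain ⟨g, hg, hs, hd, hsupp⟩ := exists_kernel T.L (T.k * T.R) (Nat.mul_pos T.hk T.hR)
    (by change 2 * (T.k * T.R) ≤ 2 * (T.R * T.m)
        have := Nat.mul_le_mul_left T.R T.hkm
        nlinarith)
  set δ : ℝ := 64 / ((T.k * T.R : ℕ):ℝ) ^ 2 with hδ
  have hδ' : δ = 64 / ((T.k:ℝ) * T.R) ^ 2 := by rw [hδ]; push_cast; ring
  set A := D / T.R + D * (2 * Real.sqrt (T.n * δ)) + 2 * (T.n * (T.n * (4 * δ * (D * T.m)))) with hA
  have hδ0 : 0 ≤ δ := by positivity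
  have hA0 : 0 ≤ A := by positivity
  have hX : ∀ X : T.Tor, ∑ j, ‖vj T g f j X‖ ≤ (T.n:ℝ) ^ (1 - 1 / q) * (C * A) := by
    intro X
    refine (sum_le_power hq (fun j => ‖vj T g f j X‖) (fun _ => norm_nonneg _)).trans ?_
    apply mul_le_mul_of_nonneg_left _ (by positivity)
    exact cotype_sup hq.le hC hY (fun j => vj T g f j X) hA0
      (fun ε => signed_bound T g hg hs hd f hD hf X ε)
  -- sum over everything
  have hcard : (0:ℝ) < Fintype.card T.Tor := by exact_mod_cast Fintype.card_pos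
  have hup : ∑ X : T.Tor, ∑ j, ‖vj T g f j X‖
      ≤ Fintype.card T.Tor * ((T.n:ℝ) ^ (1 - 1 / q) * (C * A)) := by
    refine (Finset.sum_le_sum (fun X _ => hX X)).trans (le_of_eq ?_)
    simp
  have hdown : ∀ j : Fin T.n, (Fintype.card T.Tor : ℝ) * (T.m - 2 * D * T.k)
      ≤ (T.L : ℝ) * ∑ X : T.Tor, ‖vj T g f j X‖ := by
    intro j
    have e1 : (T.L : ℝ) * ∑ X : T.Tor, ‖vj T g f j X‖
        = ∑ X : T.Tor, ∑ t : ZMod T.L, ‖vj T g f j (X + T.sj j t)‖ := by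
      rw [Finset.sum_comm]
      have : ∀ t : ZMod T.L, ∑ X : T.Tor, ‖vj T g f j (X + T.sj j t)‖
          = ∑ X : T.Tor, ‖vj T g f j X‖ := by
        intro t
        exact Equiv.sum_comp (Equiv.addRight (T.sj j t)) (fun X => ‖vj T g f j X‖)
      simp only [this, Finset.sum_const, Finset.card_univ, ZMod.card, nsmul_eq_mul]
    rw [e1]
    have := Finset.sum_le_sum (fun (X : T.Tor) (_ : X ∈ univ) =>
      line_sum T g hs hsupp f hD hf hlo j X)
    refine le_trans (le_of_eq ?_) this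
    rw [Finset.sum_const, Finset.card_univ, nsmul_eq_mul]
  have hsum : (Fintype.card T.Tor : ℝ) * (T.n * (T.m - 2 * D * T.k))
      ≤ (T.L : ℝ) * (Fintype.card T.Tor * ((T.n:ℝ) ^ (1 - 1 / q) * (C * A))) := by
    have h1 : ∑ j : Fin T.n, (Fintype.card T.Tor : ℝ) * (T.m - 2 * D * T.k)
        ≤ ∑ j : Fin T.n, (T.L : ℝ) * ∑ X : T.Tor, ‖vj T g f j X‖ :=
      Finset.sum_le_sum (fun j _ => hdown j)
    have h1' : ∑ j : Fin T.n, (T.L : ℝ) * ∑ X : T.Tor, ‖vj T g f j X‖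
        = (T.L:ℝ) * ∑ X : T.Tor, ∑ j, ‖vj T g f j X‖ := by
      rw [← Finset.mul_sum, Finset.sum_comm]
    rw [h1'] at h1
    have h2 : (T.L:ℝ) * ∑ X : T.Tor, ∑ j, ‖vj T g f j X‖
        ≤ (T.L : ℝ) * (Fintype.card T.Tor * ((T.n:ℝ) ^ (1 - 1 / q) * (C * A))) :=
      mul_le_mul_of_nonneg_left hup (by positivity)
    refine le_trans (le_of_eq ?_) (h1.trans h2)
    rw [Finset.sum_const, Finset.card_univ, Fintype.card_fin, nsmul_eq_mul]; ring
  have hmain : (T.n:ℝ) * (T.m - 2 * D * T.k) ≤ (T.L : ℝ) * ((T.n:ℝ) ^ (1 - 1 / q) * (C * A)) := by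
    have : (Fintype.card T.Tor : ℝ) * (T.n * (T.m - 2 * D * T.k))
      ≤ (Fintype.card T.Tor : ℝ) * ((T.L : ℝ) * ((T.n:ℝ) ^ (1 - 1 / q) * (C * A))) := by
      linarith
    exact le_of_mul_le_mul_left this hcard
  have hhalf : (T.m:ℝ) / 2 ≤ T.m - 2 * D * T.k := by linarith
  have hLval : (T.L : ℝ) = 2 * (T.R * T.m) := by
    change ((2 * (T.R * T.m) : ℕ) : ℝ) = _
    push_cast; ring
  have hpow : (T.n:ℝ) = (T.n:ℝ) ^ (1 - 1 / q) * (T.n:ℝ) ^ (1 / q) := by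
    rw [← Real.rpow_add hn0]; simp
  have hnp : (0:ℝ) < (T.n:ℝ) ^ (1 - 1 / q) := by positivity
  have h3 : (T.n:ℝ) ^ (1 / q) ≤ 4 * T.R * (C * A) := by
    have e1 : (T.n:ℝ) * (T.m / 2) ≤ (2 * (T.R * T.m)) * ((T.n:ℝ) ^ (1 - 1 / q) * (C * A)) := by
      rw [← hLval]
      exact (mul_le_mul_of_nonneg_left hhalf hn0.le).trans hmain
    have e2 : ((T.n:ℝ) ^ (1 - 1 / q) * (T.m / 2)) * (T.n:ℝ) ^ (1 / q)
        ≤ ((T.n:ℝ) ^ (1 - 1 / q) * (T.m / 2)) * (4 * T.R * (C * A)) := by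
      calc _ = (T.n:ℝ) * (T.m / 2) := by
            conv_rhs => rw [hpow]
            ring
        _ ≤ _ := e1
        _ = _ := by ring
    exact le_of_mul_le_mul_left e2 (by positivity)
  -- estimate 4 R A
  have hsq : Real.sqrt (T.n * δ) = 8 * Real.sqrt T.n / (T.k * T.R) := by
    rw [hδ', show (T.n:ℝ) * (64 / ((T.k:ℝ) * T.R) ^ 2) = T.n * (8 / (T.k * T.R)) ^ 2 by ring,
      Real.sqrt_mul hn0.le, Real.sqrt_sq (by positivity)]
    ring
  have hlast : 4 * T.R * A ≤ D * (2052 + 64 * Real.sqrt T.n / T.k) := by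
    have t1 : 4 * T.R * (D / T.R) = 4 * D := by field_simp
    have t2 : 4 * T.R * (D * (2 * Real.sqrt (T.n * δ))) = D * (64 * Real.sqrt T.n / T.k) := by
      rw [hsq]; field_simp; ring
    have t3 : 4 * T.R * (2 * (T.n * (T.n * (4 * δ * (D * T.m))))) ≤ D * 2048 := by
      rw [hδ']
      have e : 4 * (T.R:ℝ) * (2 * (T.n * (T.n * (4 * (64 / ((T.k:ℝ) * T.R) ^ 2) * (D * T.m)))))
          = D * 2048 * (((T.n:ℝ) ^ 2 * T.m) / T.R) / (T.k) ^ 2 := by
        field_simp; ring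
      rw [e]
      have h1 : ((T.n:ℝ) ^ 2 * T.m) / T.R ≤ 1 := by
        rw [div_le_one hR]; exact hRbig
      have h2 : (1:ℝ) ≤ (T.k:ℝ) ^ 2 := by
        have : (1:ℝ) ≤ T.k := by exact_mod_cast T.hk
        nlinarith
      rw [div_le_iff₀ (by positivity)]
      have h3 : D * 2048 * (((T.n:ℝ) ^ 2 * T.m) / T.R) ≤ D * 2048 * 1 :=
        mul_le_mul_of_nonneg_left h1 (by positivity)
      have h4 : D * 2048 * 1 ≤ D * 2048 * (T.k:ℝ) ^ 2 :=
        mul_le_mul_of_nonneg_left h2 (by positivity)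
      linarith
    have : 4 * T.R * A = 4 * T.R * (D / T.R) + 4 * T.R * (D * (2 * Real.sqrt (T.n * δ)))
        + 4 * T.R * (2 * (T.n * (T.n * (4 * δ * (D * T.m))))) := by rw [hA]; ring
    rw [this, t1, t2]
    linarith
  calc (T.n:ℝ) ^ (1 / q) ≤ 4 * T.R * (C * A) := h3
    _ = C * (4 * T.R * A) := by ring
    _ ≤ C * (D * (2052 + 64 * Real.sqrt T.n / T.k)) := mul_le_mul_of_nonneg_left hlast hC
    _ = _ := by ring

end

end Pool.Agent.H47.Grid
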