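import Mathlib

/-! One dimensional averaging kernel on a cyclic group, and its products. -/

set_option autoImplicit false

namespace Pool.Agent.H47.Grid

open Finset

/-- circular absolute value on `ZMod L` -/
def cabs {L : ℕ} (z : ZMod L) : ℕ := z.valMinAbs.natAbs

theorem cabs_zero {L : ℕ} : cabs (0 : ZMod L) = 0 := by simp [cabs]

theorem cabs_add_le {L : ℕ} (a b : ZMod L) : cabs (a + b) ≤ cabs a + cabs b := by
  unfold cabs
  exact (ZMod.natAbs_valMinAbs_add_le a b).trans (Int.natAbs_add_le _ _)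

theorem cabs_neg {L : ℕ} (a : ZMod L) : cabs (-a) = cabs a := ZMod.natAbs_valMinAbs_neg a

theorem cabs_one_le {L : ℕ} [NeZero L] : cabs (1 : ZMod L) ≤ 1 := by
  unfold cabs
  rw [ZMod.valMinAbs_natAbs_eq_min]
  refine (min_le_left _ _).trans ?_
  have := ZMod.val_natCast L 1
  rw [Nat.cast_one] at this
  rw [this]
  exact Nat.mod_le _ _

theorem cabs_lip {L : ℕ} (a b : ZMod L) : |(cabs (a + b) : ℝ) - cabs a| ≤ cabs b := by
  rw [abs_le]
  have h1 : (cabs (a + b) : ℝ) ≤ cabs a + cabs b := by exact_mod_cast cabs_add_le a b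
  have h2 : (cabs a : ℝ) ≤ cabs (a + b) + cabs b := by
    have := cabs_add_le (a + b) (-b)
    rw [cabs_neg, add_neg_cancel_right] at this
    exact_mod_cast this
  constructor <;> linarith

theorem cabs_natCast {L : ℕ} {i : ℕ} (h : 2 * i ≤ L) : cabs (i : ZMod L) = i := by
  unfold cabs
  rcases Nat.eq_zero_or_pos L with h0 | h0
  · subst h0
    have : i = 0 := by omega
    subst this; simp
  · have : NeZero L := ⟨h0.ne'⟩
    rw [ZMod.valMinAbs_natCast_of_le_half (by omega)]
    simp

theorem cabs_le_half {L : ℕ} [NeZero L] (z : ZMod L) : 2 * cabs z ≤ L := by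
  have := ZMod.natAbs_valMinAbs_le z
  unfold cabs
  omega

/-- number of points with small circular absolute value -/
theorem card_cabs_lt {L : ℕ} [NeZero L] (K : ℕ) :
    (univ.filter (fun z : ZMod L => cabs z < K)).card ≤ 2 * K := by
  classical
  have : (univ.filter (fun z : ZMod L => cabs z < K)).card
      ≤ (Finset.Ioo (-(K:ℤ)) (K:ℤ)).card := by
    refine Finset.card_le_card_of_injOn (fun z => z.valMinAbs) ?_ ?_
    · intro z hz
      simp only [Finset.coe_filter, Finset.mem_univ, true_and] at hz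
      have hz' : z.valMinAbs.natAbs < K := hz
      simp only [Finset.coe_Ioo, Set.mem_Ioo]
      omega
    · intro a _ b _ h
      exact ZMod.injective_valMinAbs h
  refine this.trans ?_
  rw [Int.card_Ioo]
  omega

theorem exists_kernel (L K : ℕ) [NeZero L] (hK : 1 ≤ K) (hKL : 2 * K ≤ L) :
    ∃ g : ZMod L → ℝ, (∀ z, 0 ≤ g z) ∧ ∑ z, g z ^ 2 = 1 ∧
      ∑ z, (g (z + 1) - g z) ^ 2 ≤ 64 / (K:ℝ) ^ 2 ∧ (∀ z, g z ≠ 0 → cabs z < K) := by
  classical
  set h : ZMod L → ℝ := fun z => max 0 ((K:ℝ) - cabs z) with hh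
  have h0 : ∀ z, 0 ≤ h z := fun z => le_max_left _ _
  have hK0 : (0:ℝ) < K := by exact_mod_cast hK
  have hlip : ∀ z, |h (z + 1) - h z| ≤ 1 := by
    intro z
    have e1 : |(cabs (z + 1) : ℝ) - cabs z| ≤ 1 :=
      (cabs_lip z 1).trans (by exact_mod_cast cabs_one_le)
    have e2 : |h (z + 1) - h z| ≤ |((K:ℝ) - cabs (z + 1)) - (K - cabs z)| := by
      simp only [hh]
      have := abs_max_sub_max_le_max (0:ℝ) ((K:ℝ) - cabs (z + 1)) 0 (K - cabs z)
      simpa using this
    refine e2.trans ?_
    rw [show ((K:ℝ) - cabs (z + 1)) - (K - cabs z) = -((cabs (z + 1) : ℝ) - cabs z) by ring, abs_neg]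
    exact e1
  have hsupp : ∀ z, h z ≠ 0 → cabs z < K := by
    intro z hz
    by_contra hc
    push Not at hc
    apply hz
    simp only [hh]
    apply max_eq_left
    have : (K:ℝ) ≤ cabs z := by exact_mod_cast hc
    linarith
  -- lower bound for the normalisation
  have hZ : (K:ℝ) ^ 3 / 8 ≤ ∑ z, h z ^ 2 := by
    have hsub : ((Finset.range (K / 2 + 1)).image (fun i : ℕ => (i : ZMod L))) ⊆ univ :=
      Finset.subset_univ _
    have hle := Finset.sum_le_sum_of_subset_of_nonneg hsub (f := fun z => h z ^ 2)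
      (fun z _ _ => sq_nonneg _)
    refine le_trans ?_ hle
    rw [Finset.sum_image]
    · have hterm : ∀ i ∈ Finset.range (K / 2 + 1), ((K:ℝ) / 2) ^ 2 ≤ h (i : ZMod L) ^ 2 := by
        intro i hi
        rw [Finset.mem_range] at hi
        have hi2 : 2 * i ≤ K := by omega
        have hc : cabs (i : ZMod L) = i := cabs_natCast (by omega)
        have : (K:ℝ) / 2 ≤ h (i : ZMod L) := by
          simp only [hh, hc]
          refine le_trans ?_ (le_max_right _ _)
          have : (2:ℝ) * i ≤ K := by exact_mod_cast hi2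
          linarith
        exact pow_le_pow_left₀ (by positivity) this 2
      have := Finset.sum_le_sum hterm
      refine le_trans ?_ this
      rw [Finset.sum_const, Finset.card_range, nsmul_eq_mul]
      have : (K:ℝ) / 2 ≤ ((K / 2 + 1 : ℕ) : ℝ) := by
        have : K ≤ 2 * (K / 2 + 1) := by omega
        have : (K:ℝ) ≤ 2 * ((K / 2 + 1 : ℕ) : ℝ) := by exact_mod_cast this
        linarith
      nlinarith [sq_nonneg ((K:ℝ) / 2)]
    · intro a ha b hb hab
      rw [Finset.mem_coe, Finset.mem_range] at ha hb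
      have e := congrArg (cabs (L := L)) hab
      simp only at e
      rwa [cabs_natCast (by omega), cabs_natCast (by omega)] at e
  set Z := ∑ z, h z ^ 2 with hZdef
  have hZ0 : 0 < Z := lt_of_lt_of_le (by positivity) hZ
  -- upper bound for the energy
  have hE : ∑ z, (h (z + 1) - h z) ^ 2 ≤ 4 * K := by
    set χ : ZMod L → ℝ := fun z => if cabs z < K then (1:ℝ) else 0 with hχ
    have hχ0 : ∀ z, 0 ≤ χ z := fun z => by simp only [hχ]; positivity
    have hterm : ∀ z, (h (z + 1) - h z) ^ 2 ≤ χ (z + 1) + χ z := by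
      intro z
      have h1 : (h (z + 1) - h z) ^ 2 ≤ 1 := by
        have := hlip z
        rw [← sq_abs]
        exact pow_le_one₀ (abs_nonneg _) this
      by_cases c1 : cabs (z + 1) < K
      · have e1 : χ (z + 1) = 1 := if_pos c1
        have := hχ0 z
        linarith
      · by_cases c2 : cabs z < K
        · have e1 : χ z = 1 := if_pos c2
          have := hχ0 (z + 1)
          linarith
        · have e1 : h (z + 1) = 0 := by
            by_contra hne; exact c1 (hsupp _ hne)
          have e2 : h z = 0 := by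
            by_contra hne; exact c2 (hsupp _ hne)
          rw [e1, e2]
          have := hχ0 (z + 1)
          have := hχ0 z
          simp only [sub_zero]
          linarith [hχ0 (z + 1), hχ0 z]
    refine (Finset.sum_le_sum (fun z _ => hterm z)).trans ?_
    rw [Finset.sum_add_distrib]
    have e := Equiv.sum_comp (Equiv.addRight (1 : ZMod L)) χ
    simp only [Equiv.coe_addRight] at e
    rw [e]
    have e3 : ∑ z : ZMod L, χ z
        = ((univ.filter (fun z : ZMod L => cabs z < K)).card : ℝ) := by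
      simp only [hχ]
      rw [Finset.sum_ite]; simp
    rw [e3]
    have : ((univ.filter (fun z : ZMod L => cabs z < K)).card : ℝ) ≤ 2 * K := by
      exact_mod_cast card_cabs_lt K
    linarith
  refine ⟨fun z => h z / Real.sqrt Z, ?_, ?_, ?_, ?_⟩
  · intro z; exact div_nonneg (h0 z) (Real.sqrt_nonneg _)
  · simp only [div_pow, Real.sq_sqrt hZ0.le]
    rw [← Finset.sum_div, ← hZdef, div_self hZ0.ne']
  · have : ∀ z, (h (z + 1) / Real.sqrt Z - h z / Real.sqrt Z) ^ 2 = (h (z + 1) - h z) ^ 2 / Z := by
      intro z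
      rw [← sub_div, div_pow, Real.sq_sqrt hZ0.le]
    simp only [this]
    rw [← Finset.sum_div, div_le_div_iff₀ hZ0 (by positivity)]
    have hE' : (∑ z, (h (z + 1) - h z) ^ 2) * (K:ℝ) ^ 2 ≤ 4 * K * (K:ℝ) ^ 2 :=
      mul_le_mul_of_nonneg_right hE (by positivity)
    nlinarith
  · intro z hz
    apply hsupp
    intro h'
    apply hz
    simp [h']

end Pool.Agent.H47.Grid
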