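import Pool.Agent.H47.Grid.Smooth

/-! Linearisation of the smoothed map. -/

set_option autoImplicit false

namespace Pool.Agent.H47.Grid

open Finset

section
variable {Y : Type*} [NormedAddCommGroup Y] [NormedSpace ℝ Y]

/-- the map on micro points -/
def ft (T : Disc) (f : T.G → Y) (X : T.Tor) : Y := f (T.rdv X)

/-- the smoothed map -/
noncomputable def Fs (T : Disc) (g : ZMod T.L → ℝ) (f : T.G → Y) (X : T.Tor) : Y :=
  ∑ w, rp g ∅ w • ft T f (w + X)

theorem Fs_ind (T : Disc) (g : ZMod T.L → ℝ) (f : T.G → Y) (X : T.Tor) (P : Finset (Fin T.n)) :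
    Fs T g f (X + ind P) = ∑ w, rp g P w • ft T f (w + X) := by
  rw [← sum_rp_shift g P (fun w => ft T f (w + X))]
  unfold Fs
  refine Finset.sum_congr rfl (fun w _ => ?_)
  rw [show w + (X + ind P) = w + ind P + X by abel]

theorem Fs_step (T : Disc) (g : ZMod T.L → ℝ) (hg : ∀ z, 0 ≤ g z)
    (hs : ∑ z, g z ^ 2 = 1) {δ : ℝ} (hd : ∑ z, (g (z + 1) - g z) ^ 2 ≤ δ)
    (f : T.G → Y) {D : ℝ} (hD : 0 ≤ D) (hf : ∀ x y, ‖f x - f y‖ ≤ D * gridDist x y)
    (X : T.Tor) (P Q : Finset (Fin T.n)) :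
    ‖Fs T g f (X + ind P) - Fs T g f (X + ind Q)‖
      ≤ D / T.R + D * (2 * Real.sqrt (T.n * δ)) := by
  have hR := T.R_pos
  refine NormedSpace.norm_le_dual_bound ℝ _ (by positivity) ?_
  intro l
  have hφ : ∀ x y : T.G, |l (f x) - l (f y)| ≤ (‖l‖ * D) * gridDist x y := by
    intro x y
    rw [← map_sub, ← Real.norm_eq_abs]
    refine (l.le_opNorm _).trans ?_
    rw [mul_assoc]
    exact mul_le_mul_of_nonneg_left (hf x y) (norm_nonneg _)
  have := scalar_step T g hg hs hd (fun x => l (f x)) (by positivity) hφ X P Q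
  rw [Fs_ind, Fs_ind, map_sub, map_sum, map_sum, Real.norm_eq_abs]
  simp only [map_smul, smul_eq_mul]
  refine this.trans (le_of_eq ?_)
  ring

theorem Fs_near (T : Disc) (g : ZMod T.L → ℝ)
    (hs : ∑ z, g z ^ 2 = 1) (hsupp : ∀ z, g z ≠ 0 → cabs z < T.k * T.R)
    (f : T.G → Y) {D : ℝ} (hD : 0 ≤ D) (hf : ∀ x y, ‖f x - f y‖ ≤ D * gridDist x y)
    (X : T.Tor) : ‖Fs T g f X - ft T f X‖ ≤ D * T.k := by
  have e : Fs T g f X - ft T f X = ∑ w, rp g ∅ w • (ft T f (w + X) - ft T f X) := by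
    unfold Fs
    simp only [smul_sub]
    rw [Finset.sum_sub_distrib, ← Finset.sum_smul, sum_rp g hs, one_smul]
  rw [e]
  have hpt : ∀ w, ‖rp g ∅ w • (ft T f (w + X) - ft T f X)‖ ≤ rp g ∅ w * (D * T.k) := by
    intro w
    rw [norm_smul, Real.norm_eq_abs, abs_of_nonneg (rp_nonneg g ∅ w)]
    by_cases h0 : rp g ∅ w = 0
    · rw [h0, zero_mul, zero_mul]
    apply mul_le_mul_of_nonneg_left _ (rp_nonneg g ∅ w)
    refine (hf _ _).trans ?_
    apply mul_le_mul_of_nonneg_left _ hD
    apply gridDist_le _ _ (by positivity)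
    intro i
    have hwi : g (w i) ≠ 0 := by
      intro h
      apply h0
      unfold rp
      apply Finset.prod_eq_zero (Finset.mem_univ i)
      simp [ind, h]
    have hc := hsupp _ hwi
    have h1 := cabs_add_le (X i) (w i)
    have h2 := cabs_add_le (X i + w i) (-(w i))
    rw [cabs_neg, add_neg_cancel_right] at h2
    change |(((cabs (w i + X i) / T.R : ℕ)) : ℝ) - ((cabs (X i) / T.R : ℕ) : ℝ)| ≤ T.k
    rw [add_comm (w i)]
    have hR : 0 < T.R := T.hR
    have a1 : cabs (X i + w i) / T.R ≤ cabs (X i) / T.R + T.k := by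
      rw [← Nat.add_mul_div_right _ _ hR]
      apply Nat.div_le_div_right
      omega
    have a2 : cabs (X i) / T.R ≤ cabs (X i + w i) / T.R + T.k := by
      rw [← Nat.add_mul_div_right _ _ hR]
      apply Nat.div_le_div_right
      omega
    have b1 : ((cabs (X i + w i) / T.R : ℕ) : ℝ) ≤ ((cabs (X i) / T.R : ℕ) : ℝ) + T.k := by
      exact_mod_cast a1
    have b2 : ((cabs (X i) / T.R : ℕ) : ℝ) ≤ ((cabs (X i + w i) / T.R : ℕ) : ℝ) + T.k := by
      exact_mod_cast a2
    rw [abs_le]; constructor <;> linarith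
  refine (norm_sum_le _ _).trans ((Finset.sum_le_sum (fun w _ => hpt w)).trans ?_)
  rw [← Finset.sum_mul, sum_rp g hs, one_mul]

theorem ind_insert {L n : ℕ} (P : Finset (Fin n)) (j : Fin n) (h : j ∉ P) :
    (ind (insert j P) : Fin n → ZMod L) = ind P + ind {j} := by
  classical
  funext i
  simp only [ind, Pi.add_apply, Finset.mem_insert, Finset.mem_singleton]
  by_cases h1 : i = j
  · subst h1; simp [h]
  · simp [h1]

theorem ind_empty {L n : ℕ} : (ind (∅ : Finset (Fin n)) : Fin n → ZMod L) = 0 := by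
  funext i; simp [ind]

theorem Fs_mixed (T : Disc) (g : ZMod T.L → ℝ) (hg : ∀ z, 0 ≤ g z)
    (hs : ∑ z, g z ^ 2 = 1) {δ : ℝ} (hd : ∑ z, (g (z + 1) - g z) ^ 2 ≤ δ)
    (f : T.G → Y) {D : ℝ} (hD : 0 ≤ D) (hf : ∀ x y, ‖f x - f y‖ ≤ D * gridDist x y)
    (X : T.Tor) (i j : Fin T.n) (hij : i ≠ j) :
    ‖Fs T g f (X + ind {i} + ind {j}) - Fs T g f (X + ind {i}) - (Fs T g f (X + ind {j})
      - Fs T g f X)‖ ≤ 4 * δ * (D * T.m) := by
  have h1 : X + ind {i} + ind {j} = X + ind {i, j} := by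
    rw [ind_insert {j} i (by simpa using hij)]; abel
  have h2 : Fs T g f X = Fs T g f (X + ind ∅) := by rw [ind_empty, add_zero]
  rw [h1, h2]
  have e : Fs T g f (X + ind {i, j}) - Fs T g f (X + ind {i}) - (Fs T g f (X + ind {j})
      - Fs T g f (X + ind ∅))
      = ∑ w, (rp g {i, j} w - rp g {i} w - rp g {j} w + rp g ∅ w) • (ft T f (w + X) - ft T f 0) := by
    simp only [Fs_ind, smul_sub, add_smul, sub_smul, Finset.sum_sub_distrib, Finset.sum_add_distrib]
    rw [← Finset.sum_smul, ← Finset.sum_smul, ← Finset.sum_smul, ← Finset.sum_smul, sum_rp g hs,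
      sum_rp g hs, sum_rp g hs, sum_rp g hs]
    abel
  rw [e]
  refine (norm_sum_le _ _).trans ?_
  have hpt : ∀ w, ‖(rp g {i, j} w - rp g {i} w - rp g {j} w + rp g ∅ w)
      • (ft T f (w + X) - ft T f 0)‖
      ≤ |rp g {i, j} w - rp g {i} w - rp g {j} w + rp g ∅ w| * (D * T.m) := by
    intro w
    rw [norm_smul, Real.norm_eq_abs]
    apply mul_le_mul_of_nonneg_left _ (abs_nonneg _)
    refine (hf _ _).trans ?_
    exact mul_le_mul_of_nonneg_left (gridDist_le_m _ _) hD
  refine (Finset.sum_le_sum (fun w _ => hpt w)).trans ?_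
  rw [← Finset.sum_mul]
  exact mul_le_mul_of_nonneg_right (second_diff g hg hs hd i j hij) (by positivity)

/-- increment in direction `j` -/
noncomputable def vj (T : Disc) (g : ZMod T.L → ℝ) (f : T.G → Y) (j : Fin T.n) (X : T.Tor) : Y :=
  Fs T g f (X + ind {j}) - Fs T g f X

theorem lin_one (T : Disc) (g : ZMod T.L → ℝ) (f : T.G → Y) {B : ℝ}
    (hB : ∀ (X : T.Tor) (i j : Fin T.n), i ≠ j →
      ‖Fs T g f (X + ind {i} + ind {j}) - Fs T g f (X + ind {i}) - (Fs T g f (X + ind {j})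
      - Fs T g f X)‖ ≤ B)
    (P : Finset (Fin T.n)) (j : Fin T.n) (hj : j ∉ P) (X : T.Tor) :
    ‖vj T g f j (X + ind P) - vj T g f j X‖ ≤ P.card * B := by
  classical
  induction P using Finset.induction_on with
  | empty => simp [ind_empty]
  | insert l P hl ih =>
    have hj' : j ∉ P := fun h => hj (Finset.mem_insert_of_mem h)
    have hlj : l ≠ j := by
      rintro rfl; exact hj (Finset.mem_insert_self _ _)
    have h1 := ih hj'
    have h2 := hB (X + ind P) l j hlj
    rw [ind_insert P l hl, Finset.card_insert_of_notMem hl, ← add_assoc]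
    have e : vj T g f j (X + ind P + ind {l}) - vj T g f j X
        = (Fs T g f (X + ind P + ind {l} + ind {j}) - Fs T g f (X + ind P + ind {l})
          - (Fs T g f (X + ind P + ind {j}) - Fs T g f (X + ind P)))
          + (vj T g f j (X + ind P) - vj T g f j X) := by
      unfold vj; abel
    rw [e]
    refine (norm_add_le _ _).trans ?_
    push_cast
    linarith

theorem lin_sum (T : Disc) (g : ZMod T.L → ℝ) (f : T.G → Y) {B : ℝ} (hB0 : 0 ≤ B)
    (hB : ∀ (X : T.Tor) (i j : Fin T.n), i ≠ j →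
      ‖Fs T g f (X + ind {i} + ind {j}) - Fs T g f (X + ind {i}) - (Fs T g f (X + ind {j})
      - Fs T g f X)‖ ≤ B)
    (P : Finset (Fin T.n)) (X : T.Tor) :
    ‖Fs T g f (X + ind P) - Fs T g f X - ∑ j ∈ P, vj T g f j X‖ ≤ P.card * (T.n * B) := by
  classical
  induction P using Finset.induction_on with
  | empty => simp [ind_empty]
  | insert l P hl ih =>
    have h2 := lin_one T g f hB P l hl X
    rw [Finset.sum_insert hl, ind_insert P l hl, Finset.card_insert_of_notMem hl, ← add_assoc]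
    have e : Fs T g f (X + ind P + ind {l}) - Fs T g f X - (vj T g f l X + ∑ j ∈ P, vj T g f j X)
        = (vj T g f l (X + ind P) - vj T g f l X)
          + (Fs T g f (X + ind P) - Fs T g f X - ∑ j ∈ P, vj T g f j X) := by
      unfold vj; abel
    rw [e]
    refine (norm_add_le _ _).trans ?_
    have hc : (P.card : ℝ) ≤ T.n := by
      have := Finset.card_le_univ P
      rw [Fintype.card_fin] at this
      exact_mod_cast this
    have : (P.card : ℝ) * B ≤ T.n * B := mul_le_mul_of_nonneg_right hc hB0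
    push_cast
    linarith

/-- all signed combinations of the increments are small -/
theorem signed_bound (T : Disc) (g : ZMod T.L → ℝ) (hg : ∀ z, 0 ≤ g z)
    (hs : ∑ z, g z ^ 2 = 1) {δ : ℝ} (hd : ∑ z, (g (z + 1) - g z) ^ 2 ≤ δ)
    (f : T.G → Y) {D : ℝ} (hD : 0 ≤ D) (hf : ∀ x y, ‖f x - f y‖ ≤ D * gridDist x y)
    (X : T.Tor) (ε : Fin T.n → Bool) :
    ‖∑ j, (if ε j then (1:ℝ) else -1) • vj T g f j X‖
      ≤ D / T.R + D * (2 * Real.sqrt (T.n * δ)) + 2 * (T.n * (T.n * (4 * δ * (D * T.m)))) := by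
  classical
  have hδ : 0 ≤ δ := le_trans (Finset.sum_nonneg (fun _ _ => sq_nonneg _)) hd
  set P : Finset (Fin T.n) := univ.filter (fun j => ε j = true) with hP
  set B := 4 * δ * (D * T.m) with hBdef
  have hB0 : 0 ≤ B := by positivity
  have hB := fun X i j h => Fs_mixed T g hg hs hd f hD hf X i j h
  have e : ∑ j, (if ε j then (1:ℝ) else -1) • vj T g f j X
      = ∑ j ∈ P, vj T g f j X - ∑ j ∈ Pᶜ, vj T g f j X := by
    rw [← Finset.sum_add_sum_compl P, sub_eq_add_neg, ← Finset.sum_neg_distrib]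
    congr 1
    · refine Finset.sum_congr rfl (fun j hj => ?_)
      have : ε j = true := by simpa [hP] using hj
      simp [this]
    · refine Finset.sum_congr rfl (fun j hj => ?_)
      have : ε j = false := by simpa [hP] using hj
      simp [this]
  rw [e]
  have h1 := lin_sum T g f hB0 hB P X
  have h2 := lin_sum T g f hB0 hB Pᶜ X
  have h3 := Fs_step T g hg hs hd f hD hf X P Pᶜ
  have hc : ∀ S : Finset (Fin T.n), (S.card : ℝ) * (T.n * B) ≤ T.n * (T.n * B) := by
    intro S
    have : (S.card : ℝ) ≤ T.n := by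
      have := Finset.card_le_univ S
      rw [Fintype.card_fin] at this
      exact_mod_cast this
    exact mul_le_mul_of_nonneg_right this (by positivity)
  have h1' := h1.trans (hc P)
  have h2' := h2.trans (hc Pᶜ)
  have e2 : ∑ j ∈ P, vj T g f j X - ∑ j ∈ Pᶜ, vj T g f j X
      = (Fs T g f (X + ind P) - Fs T g f (X + ind Pᶜ))
        - (Fs T g f (X + ind P) - Fs T g f X - ∑ j ∈ P, vj T g f j X)
        + (Fs T g f (X + ind Pᶜ) - Fs T g f X - ∑ j ∈ Pᶜ, vj T g f j X) := by abel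
  rw [e2]
  refine (norm_add_le _ _).trans ?_
  have := norm_sub_le (Fs T g f (X + ind P) - Fs T g f (X + ind Pᶜ))
    (Fs T g f (X + ind P) - Fs T g f X - ∑ j ∈ P, vj T g f j X)
  linarith

end

end Pool.Agent.H47.Grid
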