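import Pool.Agent.H47.Grid.Kernel

/-! Products of one dimensional kernels. -/

set_option autoImplicit false

namespace Pool.Agent.H47.Grid

open Finset

variable {L n : ℕ} [NeZero L]

/-- zero-one shift vector -/
def ind (P : Finset (Fin n)) : Fin n → ZMod L := fun i => if i ∈ P then 1 else 0

/-- shifted product density -/
def rp (g : ZMod L → ℝ) (P : Finset (Fin n)) (w : Fin n → ZMod L) : ℝ :=
  ∏ i, g (w i - ind P i) ^ 2

theorem sum_prod_eq (h : Fin n → ZMod L → ℝ) :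
    ∑ u : Fin n → ZMod L, ∏ i, h i (u i) = ∏ i, ∑ z, h i z := by
  classical
  rw [Finset.prod_univ_sum, Fintype.piFinset_univ]

theorem sum_shift (h : ZMod L → ℝ) (a : ZMod L) : ∑ z, h (z - a) = ∑ z, h z := by
  have := Equiv.sum_comp (Equiv.subRight a) h
  simpa using this

theorem sum_shift_pi {Y : Type*} [AddCommMonoid Y] (h : (Fin n → ZMod L) → Y)
    (a : Fin n → ZMod L) : ∑ z, h (z - a) = ∑ z, h z := by
  have := Equiv.sum_comp (Equiv.subRight a) h
  simpa using this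

theorem affinity (g : ZMod L → ℝ) (hs : ∑ z, g z ^ 2 = 1) {δ : ℝ}
    (hd : ∑ z, (g (z + 1) - g z) ^ 2 ≤ δ) (p q : ZMod L) (hp : p = 0 ∨ p = 1)
    (hq : q = 0 ∨ q = 1) (hδ : 0 ≤ δ) :
    1 - δ / 2 ≤ ∑ z, g (z - p) * g (z - q) := by
  have h1 : ∀ a : ZMod L, ∑ z, g (z - a) * g (z - a) = 1 := by
    intro a
    have := sum_shift (fun z => g z * g z) a
    rw [this, ← hs]
    exact Finset.sum_congr rfl (fun z _ => by ring)
  have h2 : 1 - δ / 2 ≤ ∑ z, g (z + 1) * g z := by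
    have e : ∑ z, (g (z + 1) - g z) ^ 2 = ∑ z, g (z + 1) ^ 2 + ∑ z, g z ^ 2
        - 2 * ∑ z, g (z + 1) * g z := by
      rw [Finset.mul_sum, ← Finset.sum_add_distrib, ← Finset.sum_sub_distrib]
      exact Finset.sum_congr rfl (fun z _ => by ring)
    have e2 : ∑ z, g (z + 1) ^ 2 = 1 := by
      have := Equiv.sum_comp (Equiv.addRight (1 : ZMod L)) (fun z => g z ^ 2)
      simp only [Equiv.coe_addRight] at this
      rw [this, hs]
    rw [e2, hs] at e
    linarith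
  have h3 : ∑ z, g (z - 0) * g (z - 1) = ∑ z, g (z + 1) * g z := by
    have := sum_shift (fun z => g (z + 1) * g z) 1
    simp only [sub_add_cancel] at this
    rw [← this]
    exact Finset.sum_congr rfl (fun z _ => by rw [sub_zero])
  rcases hp with rfl | rfl <;> rcases hq with rfl | rfl
  · rw [h1]; linarith
  · rw [h3]; exact h2
  · have : ∑ z, g (z - 1) * g (z - 0) = ∑ z, g (z - 0) * g (z - 1) :=
      Finset.sum_congr rfl (fun z _ => by ring)
    rw [this, h3]; exact h2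
  · rw [h1]; linarith

theorem ind_mem (P : Finset (Fin n)) (i : Fin n) :
    (ind P i : ZMod L) = 0 ∨ (ind P i : ZMod L) = 1 := by
  unfold ind
  by_cases h : i ∈ P
  · right; simp [h]
  · left; simp [h]

theorem rp_eq_sq (g : ZMod L → ℝ) (P : Finset (Fin n)) (w : Fin n → ZMod L) :
    rp g P w = (∏ i, g (w i - ind P i)) ^ 2 := by
  unfold rp
  rw [Finset.prod_pow]

theorem rp_nonneg (g : ZMod L → ℝ) (P : Finset (Fin n)) (w : Fin n → ZMod L) :
    0 ≤ rp g P w := by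
  rw [rp_eq_sq]; positivity

theorem sum_rp (g : ZMod L → ℝ) (hs : ∑ z, g z ^ 2 = 1) (P : Finset (Fin n)) :
    ∑ w, rp g P w = 1 := by
  unfold rp
  rw [sum_prod_eq (fun i z => g (z - ind P i) ^ 2)]
  apply Finset.prod_eq_one
  intro i _
  have := sum_shift (fun z => g z ^ 2) (ind P i)
  rw [this, hs]

theorem tv_bound (g : ZMod L → ℝ) (hg : ∀ z, 0 ≤ g z) (hs : ∑ z, g z ^ 2 = 1) {δ : ℝ}
    (hd : ∑ z, (g (z + 1) - g z) ^ 2 ≤ δ) (P Q : Finset (Fin n)) :
    ∑ w, |rp g P w - rp g Q w| ≤ 2 * Real.sqrt (n * δ) := by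
  have hδ : 0 ≤ δ := le_trans (Finset.sum_nonneg (fun _ _ => sq_nonneg _)) hd
  set G : (Fin n → ZMod L) → ℝ := fun w => ∏ i, g (w i - ind P i) with hG
  set H : (Fin n → ZMod L) → ℝ := fun w => ∏ i, g (w i - ind Q i) with hH
  have hG0 : ∀ w, 0 ≤ G w := fun w => Finset.prod_nonneg (fun i _ => hg _)
  have hH0 : ∀ w, 0 ≤ H w := fun w => Finset.prod_nonneg (fun i _ => hg _)
  have sG : ∑ w, G w ^ 2 = 1 := by
    rw [← sum_rp g hs P]
    exact Finset.sum_congr rfl (fun w _ => (rp_eq_sq g P w).symm)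
  have sH : ∑ w, H w ^ 2 = 1 := by
    rw [← sum_rp g hs Q]
    exact Finset.sum_congr rfl (fun w _ => (rp_eq_sq g Q w).symm)
  have hA : 1 - n * δ / 2 ≤ ∑ w, G w * H w := by
    have e : ∑ w, G w * H w = ∏ i : Fin n, ∑ z, g (z - ind P i) * g (z - ind Q i) := by
      rw [← sum_prod_eq (fun i z => g (z - ind P i) * g (z - ind Q i))]
      exact Finset.sum_congr rfl (fun w _ => (Finset.prod_mul_distrib).symm)
    rw [e]
    have h0 : ∀ i : Fin n, 0 ≤ ∑ z, g (z - ind P i) * g (z - ind Q i) :=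
      fun i => Finset.sum_nonneg (fun z _ => mul_nonneg (hg _) (hg _))
    have h1 : ∀ i : Fin n, 1 - δ / 2 ≤ ∑ z, g (z - ind P i) * g (z - ind Q i) :=
      fun i => affinity g hs hd _ _ (ind_mem P i) (ind_mem Q i) hδ
    by_cases hc : 0 ≤ 1 - δ / 2
    · have h2 : ∏ i : Fin n, (1 - δ / 2) ≤ ∏ i : Fin n, ∑ z, g (z - ind P i) * g (z - ind Q i) :=
        Finset.prod_le_prod (fun _ _ => hc) (fun i _ => h1 i)
      refine le_trans ?_ h2
      rw [Finset.prod_const, Finset.card_univ, Fintype.card_fin]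
      have := one_add_mul_le_pow (a := -(δ/2)) (by linarith) n
      calc 1 - n * δ / 2 = 1 + n * (-(δ/2)) := by ring
        _ ≤ (1 + -(δ/2)) ^ n := this
        _ = (1 - δ / 2) ^ n := by rw [← sub_eq_add_neg]
    · push Not at hc
      rcases Nat.eq_zero_or_pos n with hn | hn
      · subst hn; simp
      · have h3 : (1:ℝ) ≤ n := by exact_mod_cast hn
        have : 1 - n * δ / 2 ≤ 0 := by nlinarith
        exact this.trans (Finset.prod_nonneg (fun i _ => h0 i))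
  have hpt : ∀ w, |rp g P w - rp g Q w| = |G w - H w| * (G w + H w) := by
    intro w
    rw [rp_eq_sq, rp_eq_sq]
    change |G w ^ 2 - H w ^ 2| = _
    rw [show G w ^ 2 - H w ^ 2 = (G w - H w) * (G w + H w) by ring, abs_mul,
      abs_of_nonneg (add_nonneg (hG0 w) (hH0 w))]
  simp only [hpt]
  have cs := Finset.sum_mul_sq_le_sq_mul_sq univ (fun w => |G w - H w|) (fun w => G w + H w)
  have e1 : ∑ w, |G w - H w| ^ 2 ≤ n * δ := by
    have : ∑ w, |G w - H w| ^ 2 = ∑ w, G w ^ 2 + ∑ w, H w ^ 2 - 2 * ∑ w, G w * H w := by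
      rw [Finset.mul_sum, ← Finset.sum_add_distrib, ← Finset.sum_sub_distrib]
      exact Finset.sum_congr rfl (fun z _ => by rw [sq_abs]; ring)
    rw [this, sG, sH]
    linarith
  have e2 : ∑ w, (G w + H w) ^ 2 ≤ 4 := by
    have : ∑ w, (G w + H w) ^ 2 ≤ ∑ w, (2 * G w ^ 2 + 2 * H w ^ 2) :=
      Finset.sum_le_sum (fun w _ => by nlinarith [sq_nonneg (G w - H w)])
    refine this.trans ?_
    rw [Finset.sum_add_distrib, ← Finset.mul_sum, ← Finset.mul_sum, sG, sH]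
    norm_num
  have e3 : (∑ w, |G w - H w| * (G w + H w)) ^ 2 ≤ 4 * (n * δ) := by
    refine cs.trans ?_
    have h0 : 0 ≤ ∑ w, (G w + H w) ^ 2 := Finset.sum_nonneg (fun _ _ => sq_nonneg _)
    have h1 : 0 ≤ (n:ℝ) * δ := by positivity
    calc (∑ w, |G w - H w| ^ 2) * ∑ w, (G w + H w) ^ 2
        ≤ (n * δ) * ∑ w, (G w + H w) ^ 2 := mul_le_mul_of_nonneg_right e1 h0
      _ ≤ (n * δ) * 4 := mul_le_mul_of_nonneg_left e2 h1
      _ = 4 * (n * δ) := by ring
  have h1 : 0 ≤ (n:ℝ) * δ := by positivity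
  refine le_of_sq_le_sq ?_ (by positivity)
  rw [mul_pow, Real.sq_sqrt h1]
  linarith

theorem tv_one (g : ZMod L → ℝ) (hg : ∀ z, 0 ≤ g z) (hs : ∑ z, g z ^ 2 = 1) {δ : ℝ}
    (hd : ∑ z, (g (z + 1) - g z) ^ 2 ≤ δ) :
    ∑ z, |g (z - 1) ^ 2 - g z ^ 2| ≤ 2 * Real.sqrt δ := by
  have hδ : 0 ≤ δ := le_trans (Finset.sum_nonneg (fun _ _ => sq_nonneg _)) hd
  have hpt : ∀ z, |g (z - 1) ^ 2 - g z ^ 2| = |g (z - 1) - g z| * (g (z - 1) + g z) := by
    intro z
    rw [show g (z - 1) ^ 2 - g z ^ 2 = (g (z - 1) - g z) * (g (z - 1) + g z) by ring, abs_mul,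
      abs_of_nonneg (add_nonneg (hg _) (hg _))]
  simp only [hpt]
  have cs := Finset.sum_mul_sq_le_sq_mul_sq univ (fun z => |g (z - 1) - g z|)
    (fun z => g (z - 1) + g z)
  have e1 : ∑ z, |g (z - 1) - g z| ^ 2 ≤ δ := by
    have := sum_shift (fun z => (g (z + 1) - g z) ^ 2) 1
    simp only [sub_add_cancel] at this
    have e : ∑ z, |g (z - 1) - g z| ^ 2 = ∑ z, (g z - g (z - 1)) ^ 2 :=
      Finset.sum_congr rfl (fun z _ => by rw [sq_abs]; ring)
    rw [e, this]; exact hd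
  have e2 : ∑ z, (g (z - 1) + g z) ^ 2 ≤ 4 := by
    have : ∑ z, (g (z - 1) + g z) ^ 2 ≤ ∑ z, (2 * g (z - 1) ^ 2 + 2 * g z ^ 2) :=
      Finset.sum_le_sum (fun w _ => by nlinarith [sq_nonneg (g (w - 1) - g w)])
    refine this.trans ?_
    have e := sum_shift (fun z => g z ^ 2) 1
    rw [Finset.sum_add_distrib, ← Finset.mul_sum, ← Finset.mul_sum, hs, e, hs]
    norm_num
  have e3 : (∑ z, |g (z - 1) - g z| * (g (z - 1) + g z)) ^ 2 ≤ 4 * δ := by
    refine cs.trans ?_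
    have h0 : 0 ≤ ∑ z, (g (z - 1) + g z) ^ 2 := Finset.sum_nonneg (fun _ _ => sq_nonneg _)
    calc (∑ z, |g (z - 1) - g z| ^ 2) * ∑ z, (g (z - 1) + g z) ^ 2
        ≤ δ * ∑ z, (g (z - 1) + g z) ^ 2 := mul_le_mul_of_nonneg_right e1 h0
      _ ≤ δ * 4 := mul_le_mul_of_nonneg_left e2 hδ
      _ = 4 * δ := by ring
  refine le_of_sq_le_sq ?_ (by positivity)
  rw [mul_pow, Real.sq_sqrt hδ]
  linarith


theorem second_diff (g : ZMod L → ℝ) (hg : ∀ z, 0 ≤ g z) (hs : ∑ z, g z ^ 2 = 1) {δ : ℝ}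
    (hd : ∑ z, (g (z + 1) - g z) ^ 2 ≤ δ) (i j : Fin n) (hij : i ≠ j) :
    ∑ w, |rp g {i, j} w - rp g {i} w - rp g {j} w + rp g ∅ w| ≤ 4 * δ := by
  classical
  have hδ : 0 ≤ δ := le_trans (Finset.sum_nonneg (fun _ _ => sq_nonneg _)) hd
  set k : Fin n → ZMod L → ℝ := fun l z =>
    if l = i ∨ l = j then g (z - 1) ^ 2 - g z ^ 2 else g z ^ 2 with hk
  have split : ∀ c : Fin n → ℝ, ∏ l, c l = (∏ l ∈ univ \ {i, j}, c l) * (c i * c j) := by
    intro c
    rw [← Finset.prod_sdiff (Finset.subset_univ ({i, j} : Finset (Fin n))), Finset.prod_pair hij]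
  have hpt : ∀ w : Fin n → ZMod L,
      rp g {i, j} w - rp g {i} w - rp g {j} w + rp g ∅ w = ∏ l, k l (w l) := by
    intro w
    unfold rp
    rw [split, split (fun l => g (w l - ind {i} l) ^ 2), split (fun l => g (w l - ind {j} l) ^ 2),
      split (fun l => g (w l - ind ∅ l) ^ 2), split (fun l => k l (w l))]
    have e : ∀ S : Finset (Fin n), S ⊆ {i, j} →
        ∏ l ∈ univ \ {i, j}, g (w l - ind S l) ^ 2 = ∏ l ∈ univ \ {i, j}, g (w l) ^ 2 := by
      intro S hS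
      refine Finset.prod_congr rfl (fun l hl => ?_)
      have : l ∉ S := fun h => (Finset.mem_sdiff.1 hl).2 (hS h)
      simp [ind, this]
    have e' : ∏ l ∈ univ \ {i, j}, k l (w l) = ∏ l ∈ univ \ {i, j}, g (w l) ^ 2 := by
      refine Finset.prod_congr rfl (fun l hl => ?_)
      have h1 := (Finset.mem_sdiff.1 hl).2
      simp only [Finset.mem_insert, Finset.mem_singleton] at h1
      simp only [hk]
      rw [if_neg h1]
    rw [e _ (Finset.Subset.refl _), e {i} (by simp), e {j} (by simp), e ∅ (Finset.empty_subset _), e']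
    have k1 : k i (w i) = g (w i - 1) ^ 2 - g (w i) ^ 2 := by simp [hk]
    have k2 : k j (w j) = g (w j - 1) ^ 2 - g (w j) ^ 2 := by simp [hk]
    rw [k1, k2]
    have hji : j ≠ i := hij.symm
    simp only [ind, Finset.mem_insert, Finset.mem_singleton, true_or, or_true, if_true, hij, hji,
      if_false, sub_zero, Finset.notMem_empty]
    ring
  simp only [hpt, Finset.abs_prod]
  rw [sum_prod_eq (fun l z => |k l z|), split (fun l => ∑ z, |k l z|)]
  have e1 : ∏ l ∈ univ \ {i, j}, ∑ z, |k l z| = 1 := by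
    refine Finset.prod_eq_one (fun l hl => ?_)
    have h1 := (Finset.mem_sdiff.1 hl).2
    simp only [Finset.mem_insert, Finset.mem_singleton] at h1
    rw [← hs]
    refine Finset.sum_congr rfl (fun z _ => ?_)
    simp only [hk]
    rw [if_neg h1, abs_of_nonneg (sq_nonneg _)]
  have t := tv_one g hg hs hd
  have e2 : ∑ z, |k i z| ≤ 2 * Real.sqrt δ := by
    refine le_trans (le_of_eq (Finset.sum_congr rfl (fun z _ => ?_))) t
    simp [hk]
  have e3 : ∑ z, |k j z| ≤ 2 * Real.sqrt δ := by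
    refine le_trans (le_of_eq (Finset.sum_congr rfl (fun z _ => ?_))) t
    simp [hk]
  rw [e1, one_mul]
  calc (∑ z, |k i z|) * ∑ z, |k j z| ≤ (2 * Real.sqrt δ) * (2 * Real.sqrt δ) :=
        mul_le_mul e2 e3 (Finset.sum_nonneg (fun _ _ => abs_nonneg _)) (by positivity)
    _ = 4 * (Real.sqrt δ * Real.sqrt δ) := by ring
    _ = 4 * δ := by rw [Real.mul_self_sqrt hδ]

end Pool.Agent.H47.Grid
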