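import Pool.Agent.H47.Grid.Prod

/-! Smoothing of a map defined on an integer grid. -/

set_option autoImplicit false

namespace Pool.Agent.H47.Grid

open Finset

/-- the `l_∞` distance of two points of the grid `{0,…,m}^n` -/
noncomputable def gridDist {n m : ℕ} (x y : Fin n → Fin (m + 1)) : ℝ :=
  dist (fun i => ((x i : ℕ) : ℝ)) (fun i => ((y i : ℕ) : ℝ))

theorem gridDist_nonneg {n m : ℕ} (x y : Fin n → Fin (m + 1)) : 0 ≤ gridDist x y := dist_nonneg

theorem gridDist_le {n m : ℕ} (x y : Fin n → Fin (m + 1)) {r : ℝ} (hr : 0 ≤ r)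
    (h : ∀ i, |((x i : ℕ) : ℝ) - ((y i : ℕ) : ℝ)| ≤ r) : gridDist x y ≤ r := by
  unfold gridDist
  rw [dist_pi_le_iff hr]
  intro i
  rw [Real.dist_eq]; exact h i

theorem le_gridDist {n m : ℕ} (x y : Fin n → Fin (m + 1)) (i : Fin n) :
    |((x i : ℕ) : ℝ) - ((y i : ℕ) : ℝ)| ≤ gridDist x y := by
  have := dist_le_pi_dist (fun i => ((x i : ℕ) : ℝ)) (fun i => ((y i : ℕ) : ℝ)) i
  rwa [Real.dist_eq] at this

theorem gridDist_le_m {n m : ℕ} (x y : Fin n → Fin (m + 1)) : gridDist x y ≤ m := by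
  apply gridDist_le _ _ (by positivity)
  intro i
  have h1 : ((x i : ℕ) : ℝ) ≤ m := by exact_mod_cast Nat.lt_succ_iff.1 (x i).2
  have h2 : ((y i : ℕ) : ℝ) ≤ m := by exact_mod_cast Nat.lt_succ_iff.1 (y i).2
  have h3 : (0:ℝ) ≤ ((x i : ℕ) : ℝ) := by positivity
  have h4 : (0:ℝ) ≤ ((y i : ℕ) : ℝ) := by positivity
  rw [abs_le]; constructor <;> linarith

/-- data of the discretisation -/
structure Disc where
  n : ℕ
  m : ℕ
  R : ℕ
  k : ℕ
  hn : 1 ≤ n
  hm : 1 ≤ m
  hR : 1 ≤ R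
  hk : 1 ≤ k
  hkm : k ≤ m

namespace Disc

variable (T : Disc)

/-- length of the micro circle -/
abbrev L : ℕ := 2 * (T.R * T.m)

theorem Rm_pos : 0 < T.R * T.m := Nat.mul_pos T.hR T.hm

instance : NeZero T.L := ⟨by have := T.Rm_pos; change 2 * (T.R * T.m) ≠ 0; omega⟩

/-- micro torus -/
abbrev Tor : Type := Fin T.n → ZMod T.L

/-- macro grid -/
abbrev G : Type := Fin T.n → Fin (T.m + 1)

/-- rounding -/
def rd (z : ZMod T.L) : Fin (T.m + 1) :=
  ⟨cabs z / T.R, by
    have h := cabs_le_half z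
    have h2 : cabs z ≤ T.R * T.m := by
      have : 2 * cabs z ≤ 2 * (T.R * T.m) := h
      omega
    have h3 : cabs z / T.R ≤ T.m := by
      rw [Nat.div_le_iff_le_mul_add_pred T.hR]
      have := T.hR
      omega
    omega⟩

/-- rounding of a micro point -/
def rdv (X : T.Tor) : T.G := fun i => T.rd (X i)

/-- real position of a micro point -/
noncomputable def pos (X : T.Tor) : Fin T.n → ℝ := fun i => (cabs (X i) : ℝ) / T.R

theorem R_pos : (0:ℝ) < T.R := by exact_mod_cast T.hR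

theorem dist_pos_rd (X : T.Tor) :
    dist (fun i => ((T.rdv X i : ℕ) : ℝ)) (T.pos X) ≤ 1 := by
  rw [dist_pi_le_iff zero_le_one]
  intro i
  rw [Real.dist_eq]
  change |(((cabs (X i) / T.R : ℕ)) : ℝ) - (cabs (X i) : ℝ) / T.R| ≤ 1
  have hR := T.R_pos
  have h1 : (((cabs (X i) / T.R : ℕ)) : ℝ) ≤ (cabs (X i) : ℝ) / T.R := Nat.cast_div_le
  have h2 : (cabs (X i) : ℝ) / T.R ≤ ((cabs (X i) / T.R : ℕ) : ℝ) + 1 := by
    rw [div_le_iff₀ hR]
    have := (Nat.lt_mul_div_succ (cabs (X i)) (show 0 < T.R from T.hR)).le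
    have : ((cabs (X i) : ℕ) : ℝ) ≤ T.R * ((cabs (X i) / T.R : ℕ) + 1) := by exact_mod_cast this
    linarith
  rw [abs_le]; constructor <;> linarith

theorem dist_pos_pos (X : T.Tor) (a b : T.Tor) (r : ℕ)
    (h : ∀ i, cabs (a i - b i) ≤ r) : dist (T.pos (X + a)) (T.pos (X + b)) ≤ r / T.R := by
  have hR := T.R_pos
  rw [dist_pi_le_iff (by positivity)]
  intro i
  rw [Real.dist_eq]
  change |(cabs (X i + a i) : ℝ) / T.R - (cabs (X i + b i) : ℝ) / T.R| ≤ _
  rw [← sub_div, abs_div, abs_of_pos hR]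
  apply div_le_div_of_nonneg_right _ hR.le
  have := cabs_lip (X i + b i) (a i - b i)
  rw [show X i + b i + (a i - b i) = X i + a i by ring] at this
  refine this.trans ?_
  exact_mod_cast h i

/-- extension of a scalar function from the macro grid to the real space -/
theorem exists_ext (φ : T.G → ℝ) {A : ℝ} (hA : 0 ≤ A)
    (hφ : ∀ x y, |φ x - φ y| ≤ A * gridDist x y) :
    ∃ ψ : (Fin T.n → ℝ) → ℝ, (∀ u v, |ψ u - ψ v| ≤ A * dist u v) ∧
      ∀ x : T.G, ψ (fun i => ((x i : ℕ) : ℝ)) = φ x := by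
  set c : T.G → (Fin T.n → ℝ) := fun x i => ((x i : ℕ) : ℝ) with hc
  have hinj : Function.Injective c := by
    intro x y h
    funext i
    have := congrFun h i
    simp only [hc, Nat.cast_inj] at this
    exact Fin.ext this
  have hlip : LipschitzOnWith (Real.toNNReal A) (Function.extend c φ 0) (Set.range c) := by
    rw [lipschitzOnWith_iff_dist_le_mul]
    rintro _ ⟨x, rfl⟩ _ ⟨y, rfl⟩
    rw [hinj.extend_apply, hinj.extend_apply, Real.dist_eq, Real.coe_toNNReal _ hA]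
    exact hφ x y
  obtain ⟨ψ, h1, h2⟩ := hlip.extend_real
  refine ⟨ψ, ?_, ?_⟩
  · intro u v
    have := h1.dist_le_mul u v
    rwa [Real.dist_eq, Real.coe_toNNReal _ hA] at this
  · intro x
    have := h2 (Set.mem_range_self x)
    rw [hinj.extend_apply] at this
    exact this.symm

end Disc

theorem sum_rp_shift {L n : ℕ} [NeZero L] {Y : Type*} [AddCommGroup Y] [Module ℝ Y]
    (g : ZMod L → ℝ) (P : Finset (Fin n)) (h : (Fin n → ZMod L) → Y) :
    ∑ w, rp g ∅ w • h (w + ind P) = ∑ w, rp g P w • h w := by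
  rw [← sum_shift_pi (fun w => rp g ∅ w • h (w + ind P)) (ind P)]
  refine Finset.sum_congr rfl (fun w _ => ?_)
  rw [sub_add_cancel]
  congr 1
  unfold rp
  refine Finset.prod_congr rfl (fun i _ => ?_)
  simp [ind]

/-- scalar step estimate -/
theorem scalar_step (T : Disc) (g : ZMod T.L → ℝ) (hg : ∀ z, 0 ≤ g z)
    (hs : ∑ z, g z ^ 2 = 1) {δ : ℝ} (hd : ∑ z, (g (z + 1) - g z) ^ 2 ≤ δ)
    (φ : T.G → ℝ) {A : ℝ} (hA : 0 ≤ A) (hφ : ∀ x y, |φ x - φ y| ≤ A * gridDist x y)
    (X : T.Tor) (P Q : Finset (Fin T.n)) :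
    |∑ w, rp g P w * φ (T.rdv (w + X)) - ∑ w, rp g Q w * φ (T.rdv (w + X))|
      ≤ A / T.R + A * (2 * Real.sqrt (T.n * δ)) := by
  obtain ⟨ψ, h1, h2⟩ := T.exists_ext φ hA hφ
  set θ : T.Tor → ℝ := fun w => φ (T.rdv w) - ψ (T.pos w) with hθ
  have hθb : ∀ w, |θ w| ≤ A := by
    intro w
    simp only [hθ]
    rw [← h2 (T.rdv w)]
    refine (h1 _ _).trans ?_
    have := mul_le_mul_of_nonneg_left (T.dist_pos_rd w) hA
    linarith
  have hdec : ∀ S : Finset (Fin T.n), ∑ w, rp g S w * φ (T.rdv (w + X))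
      = ∑ w, rp g S w * ψ (T.pos (w + X)) + ∑ w, rp g S w * θ (w + X) := by
    intro S
    rw [← Finset.sum_add_distrib]
    exact Finset.sum_congr rfl (fun w _ => by simp only [hθ]; ring)
  have hψ : ∀ S : Finset (Fin T.n), ∑ w, rp g S w * ψ (T.pos (w + X))
      = ∑ w, rp g ∅ w * ψ (T.pos (w + ind S + X)) := by
    intro S
    have := sum_rp_shift g S (fun w => ψ (T.pos (w + X)))
    simp only [smul_eq_mul] at this
    exact this.symm
  have e1 : |∑ w, rp g P w * ψ (T.pos (w + X)) - ∑ w, rp g Q w * ψ (T.pos (w + X))| ≤ A / T.R := by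
    rw [hψ P, hψ Q, ← Finset.sum_sub_distrib]
    refine (Finset.abs_sum_le_sum_abs _ _).trans ?_
    have : ∀ w, |rp g ∅ w * ψ (T.pos (w + ind P + X)) - rp g ∅ w * ψ (T.pos (w + ind Q + X))|
        ≤ rp g ∅ w * (A / T.R) := by
      intro w
      rw [← mul_sub, abs_mul, abs_of_nonneg (rp_nonneg g ∅ w)]
      apply mul_le_mul_of_nonneg_left _ (rp_nonneg g ∅ w)
      refine (h1 _ _).trans ?_
      have hd' := T.dist_pos_pos (w + X) (ind P) (ind Q) 1 (by
        intro i
        rcases ind_mem (L := T.L) P i with h | h <;> rcases ind_mem (L := T.L) Q i with h' | h' <;>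
          rw [h, h']
        · simp [cabs_zero]
        · rw [zero_sub, cabs_neg]; exact cabs_one_le
        · rw [sub_zero]; exact cabs_one_le
        · simp [cabs_zero])
      rw [show w + ind P + X = w + X + ind P by abel, show w + ind Q + X = w + X + ind Q by abel]
      have := mul_le_mul_of_nonneg_left hd' hA
      refine this.trans (le_of_eq ?_)
      push_cast
      ring
    refine (Finset.sum_le_sum (fun w _ => this w)).trans ?_
    rw [← Finset.sum_mul, sum_rp g hs, one_mul]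
  have e2 : |∑ w, rp g P w * θ (w + X) - ∑ w, rp g Q w * θ (w + X)|
      ≤ A * (2 * Real.sqrt (T.n * δ)) := by
    rw [← Finset.sum_sub_distrib]
    refine (Finset.abs_sum_le_sum_abs _ _).trans ?_
    have : ∀ w, |rp g P w * θ (w + X) - rp g Q w * θ (w + X)| ≤ A * |rp g P w - rp g Q w| := by
      intro w
      rw [← sub_mul, abs_mul, mul_comm]
      exact mul_le_mul_of_nonneg_right (hθb _) (abs_nonneg _)
    refine (Finset.sum_le_sum (fun w _ => this w)).trans ?_
    rw [← Finset.mul_sum]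
    exact mul_le_mul_of_nonneg_left (tv_bound g hg hs hd P Q) hA
  rw [hdec P, hdec Q]
  calc _ = |(∑ w, rp g P w * ψ (T.pos (w + X)) - ∑ w, rp g Q w * ψ (T.pos (w + X)))
        + (∑ w, rp g P w * θ (w + X) - ∑ w, rp g Q w * θ (w + X))| := by congr 1; ring
    _ ≤ _ := (abs_add_le _ _).trans (add_le_add e1 e2)

end Pool.Agent.H47.Grid
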